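import Mathlib

/-! Cancellation fails for a translation-invariant algebra on a compact abelian group. -/

namespace Pool.Agent.Results.MP_59868e_an.NoCancel

open Set Filter Pointwise Function

/-- `A ∼ B`: equidecomposability by translations with pieces in `𝒜`. -/
def Equidec {X : Type} [AddCommGroup X] (𝒜 : Set (Set X)) (A B : Set X) : Prop :=
  ∃ (k : ℕ) (C : Fin k → Set X) (g : Fin k → X), (∀ i, C i ∈ 𝒜 ∧ g i +ᵥ C i ∈ 𝒜) ∧
    Pairwise (Disjoint on C) ∧ ⋃ i, C i = A ∧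
    Pairwise (Disjoint on fun i => g i +ᵥ C i) ∧ ⋃ i, g i +ᵥ C i = B

/-- `n[A] = n[B]`. -/
def MultEq {X : Type} [AddCommGroup X] (𝒜 : Set (Set X)) (n : ℕ) (A B : Set X) : Prop :=
  ∃ (k : ℕ) (C : Fin k → Set X) (g : Fin k → X) (j m : Fin k → Fin n),
    (∀ i, C i ∈ 𝒜 ∧ g i +ᵥ C i ∈ 𝒜) ∧
    Pairwise (Disjoint on fun i => C i ×ˢ ({j i} : Set (Fin n))) ∧
    ⋃ i, C i ×ˢ ({j i} : Set (Fin n)) = A ×ˢ univ ∧
    Pairwise (Disjoint on fun i => (g i +ᵥ C i) ×ˢ ({m i} : Set (Fin n))) ∧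
    ⋃ i, (g i +ᵥ C i) ×ˢ ({m i} : Set (Fin n)) = B ×ˢ univ

abbrev X0 := ℤ_[2] × ZMod 2

def Alg : Set (Set X0) :=
  {E | ∀ x : ℤ_[2], ∀ᶠ n : ℕ in atTop, ((x + n, 0) ∈ E ↔ (x + n, 1) ∈ E)}

lemma z2 : ∀ b : ZMod 2, (-b + 0 = 0 ∧ -b + 1 = 1) ∨ (-b + 0 = 1 ∧ -b + 1 = 0) := by decide

lemma alg_vadd (t : X0) (E : Set X0) (hE : E ∈ Alg) : t +ᵥ E ∈ Alg := by
  intro x
  filter_upwards [hE (-t.1 + x)] with n hn
  obtain ⟨a, b⟩ := t
  simp only [mem_vadd_set_iff_neg_vadd_mem, vadd_eq_add, Prod.neg_mk, Prod.mk_add_mk, ← add_assoc]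
  rcases z2 b with ⟨h1, h2⟩ | ⟨h1, h2⟩ <;> rw [h1, h2]
  · exact hn
  · exact hn.symm

lemma alg_alg : MeasureTheory.IsSetAlgebra Alg where
  empty_mem := fun _ => by simp
  compl_mem := fun E hE x => (hE x).mono fun n hn => not_congr hn
  union_mem := fun E F hE hF x => ((hE x).and (hF x)).mono fun n hn => or_congr hn.1 hn.2

lemma alg_pt (p : X0) : {p} ∈ Alg := by
  intro x
  by_cases h : ∃ n : ℕ, x + n = p.1
  · obtain ⟨n, hn⟩ := h
    filter_upwards [eventually_gt_atTop n] with m hm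
    have : x + m ≠ p.1 := fun e => hm.ne' (by exact_mod_cast add_left_cancel (e.trans hn.symm))
    simp [Prod.ext_iff, this]
  · push Not at h
    simp [Prod.ext_iff, h]

def H : Set X0 := {p | ∃ n : ℕ, p.1 = n}

lemma alg_H : H ∈ Alg := fun _ => Eventually.of_forall fun _ => Iff.rfl

open Classical in
noncomputable def ind (C : Set X0) (p : X0) : ZMod 2 := if p ∈ C then 1 else 0

lemma ind_congr {C D : Set X0} {p q : X0} (h : p ∈ C ↔ q ∈ D) : ind C p = ind D q := by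
  unfold ind; rw [propext h]

noncomputable def fl (C : Set X0) (x : ℤ_[2]) : ZMod 2 := ind C (x, 0) + ind C (x, 1)

lemma fl_zero {C : Set X0} {x : ℤ_[2]} (h : (x, 0) ∈ C ↔ (x, 1) ∈ C) : fl C x = 0 := by
  rw [fl, ind_congr h, CharTwo.add_self_eq_zero]

lemma fl_fin {C : Set X0} (hC : C ∈ Alg) (h : C ⊆ H) : (support (fl C)).Finite := by
  obtain ⟨N, hN⟩ := eventually_atTop.1 (hC 0)
  refine ((finite_Iio N).image (Nat.cast : ℕ → ℤ_[2])).subset (fun x hx => ?_)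
  by_contra hc
  apply hx
  by_cases h0 : ∃ n : ℕ, x = n
  · obtain ⟨n, rfl⟩ := h0
    have := hN n (by by_contra h1; exact hc ⟨n, not_le.1 h1, rfl⟩)
    rw [zero_add] at this
    exact fl_zero this
  · exact fl_zero ⟨fun h1 => (h0 (h h1)).elim, fun h1 => (h0 (h h1)).elim⟩

lemma fl_vadd (t : X0) (C : Set X0) (x : ℤ_[2]) : fl (t +ᵥ C) x = fl C (-t.1 + x) := by
  obtain ⟨a, b⟩ := t
  rw [fl, ind_congr mem_vadd_set_iff_neg_vadd_mem, ind_congr mem_vadd_set_iff_neg_vadd_mem]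
  simp only [fl, vadd_eq_add, Prod.neg_mk, Prod.mk_add_mk]
  rcases z2 b with ⟨h1, h2⟩ | ⟨h1, h2⟩ <;> rw [h1, h2]
  exact add_comm _ _

lemma theta {k : ℕ} (C : Fin k → Set X0) (hC : ∀ i, C i ∈ Alg) (hd : Pairwise (Disjoint on C))
    (h : ⋃ i, C i ⊆ H) : ∑ᶠ x, fl (⋃ i, C i) x = ∑ i, ∑ᶠ x, fl (C i) x := by
  classical
  rw [← finsum_sum_comm _ _ (fun i _ => fl_fin (hC i) ((subset_iUnion C i).trans h))]
  refine finsum_congr (fun x => ?_)
  have key : ∀ p, ind (⋃ i, C i) p = ∑ i, ind (C i) p := by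
    intro p
    unfold ind
    by_cases hp : p ∈ ⋃ i, C i
    · obtain ⟨i, hi⟩ := mem_iUnion.1 hp
      rw [if_pos hp, Finset.sum_eq_single i, if_pos hi]
      · exact fun j _ hj => if_neg (fun h1 => disjoint_left.1 (hd hj) h1 hi)
      · simp
    · rw [if_neg hp]
      exact (Finset.sum_eq_zero fun i _ => if_neg (fun h1 => hp (mem_iUnion.2 ⟨i, h1⟩))).symm
  simp only [fl, Finset.sum_add_distrib, key]

lemma not_eq : ¬ Equidec Alg H (H \ {0}) := by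
  rintro ⟨k, C, g, h1, h2, h3, h4, h5⟩
  have e1 := theta C (fun i => (h1 i).1) h2 h3.le
  have e2 := theta _ (fun i => (h1 i).2) h4 (h5.le.trans sdiff_subset)
  have e3 : ∀ i, ∑ᶠ x, fl (g i +ᵥ C i) x = ∑ᶠ x, fl (C i) x := fun i => by
    simp only [fl_vadd]
    exact finsum_comp_equiv (Equiv.addLeft (-(g i).1))
  simp only [e3] at e2
  rw [← e1, h3, h5] at e2
  have a : ∑ᶠ x, fl H x = 0 := finsum_eq_zero_of_forall_eq_zero (fun x => fl_zero Iff.rfl)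
  have b : ∑ᶠ x, fl (H \ {0}) x = 1 := by
    rw [finsum_eq_single _ 0]
    · unfold fl ind
      rw [if_neg (fun h => h.2 rfl), if_pos ⟨⟨0, by simp⟩, by simp [Prod.ext_iff]⟩, zero_add]
    · intro x hx
      exact fl_zero (by simp [Prod.ext_iff, hx, H])
  rw [a, b] at e2
  exact absurd e2 (by decide)

lemma shift (p : X0) : p ∈ ((1, 0) : X0) +ᵥ H ↔ p ∈ H ∧ p.1 ≠ 0 := by
  simp only [mem_vadd_set_iff_neg_vadd_mem, vadd_eq_add, H, mem_ofPred_eq, Prod.fst_add,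
    Prod.fst_neg]
  constructor
  · rintro ⟨n, hn⟩
    have : p.1 = ((n + 1 : ℕ) : ℤ_[2]) := by push_cast; linear_combination hn
    exact ⟨⟨_, this⟩, by rw [this]; exact Nat.cast_ne_zero.2 (by omega)⟩
  · rintro ⟨⟨n, hn⟩, h⟩
    cases n with
    | zero => exact (h (by simpa using hn)).elim
    | succ n => exact ⟨n, by rw [hn]; push_cast; ring⟩

lemma mult : MultEq Alg 2 H (H \ {0}) := by
  have hD : H \ {0} ∈ Alg := alg_alg.sdiff_mem alg_H (alg_pt 0)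
  have z : (0 : X0) ∈ H := ⟨0, by simp⟩
  have z1 : ((0, 1) : X0) ∈ H := ⟨0, by simp⟩
  have e : (fun i => ((![(1, 0), 0, (0, 1)] : Fin 3 → X0) i) +ᵥ
      (![H, H \ {0}, {0}] : Fin 3 → Set X0) i) = ![{p | p ∈ H ∧ p.1 ≠ 0}, H \ {0}, {(0, 1)}] := by
    funext i
    fin_cases i
    · ext p; exact shift p
    · exact zero_vadd _ _
    · simp
  refine ⟨3, ![H, H \ {0}, {0}], ![(1, 0), 0, (0, 1)], ![0, 1, 1], ![0, 1, 0], fun i => ?_, ?_, ?_,
    ?_, ?_⟩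
  · refine (fun h => ⟨h, alg_vadd _ _ h⟩) ?_
    fin_cases i
    · exact alg_H
    · exact hD
    · exact alg_pt 0
  · intro i j hij
    fin_cases i <;> fin_cases j <;> simp_all [onFun, Set.disjoint_prod]
  · ext ⟨p, s⟩
    simp only [mem_iUnion, Fin.exists_fin_succ]
    by_cases hp : p = 0 <;> fin_cases s <;> simp [hp, z]
  · intro i j hij
    simp only [onFun, congrFun e]
    fin_cases i <;> fin_cases j <;> simp_all [Set.disjoint_prod]
  · ext ⟨⟨a, b⟩, s⟩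
    simp only [congrFun e, mem_iUnion, Fin.exists_fin_succ]
    have hb : b = 0 ∨ b = 1 := by revert b; decide
    by_cases ha : a = 0 <;> rcases hb with rfl | rfl <;> fin_cases s <;>
      simp [ha, z1, Prod.ext_iff]

theorem result : ∃ (X : Type) (_ : AddCommGroup X) (_ : TopologicalSpace X),
    IsTopologicalAddGroup X ∧ CompactSpace X ∧ T2Space X ∧ ∃ 𝒜 : Set (Set X),
      MeasureTheory.IsSetAlgebra 𝒜 ∧ (∀ t : X, ∀ E ∈ 𝒜, t +ᵥ E ∈ 𝒜) ∧
      ∃ A ∈ 𝒜, ∃ B ∈ 𝒜, MultEq 𝒜 2 A B ∧ ¬ Equidec 𝒜 A B :=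
  ⟨X0, inferInstance, inferInstance, inferInstance, inferInstance, inferInstance, Alg, alg_alg,
    alg_vadd, H, alg_H, H \ {0}, alg_alg.sdiff_mem alg_H (alg_pt 0), mult, not_eq⟩

end Pool.Agent.Results.MP_59868e_an.NoCancel
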